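import Mathlib

namespace Pool.Agent.Lib.MP_87fd0b_al.Seed

/-- In a p-group of permutations of a set with p^c points every element has order dividing p^c. -/
theorem pow_eq_one_of_orderOf {X : Type} [Fintype X] [DecidableEq X] (p : ℕ) [hp : Fact p.Prime] (c : ℕ)
    (hX : Fintype.card X = p ^ c) (x : Equiv.Perm X) (k : ℕ) (hk : orderOf x ∣ p ^ k) : x ^ p ^ c = 1 := by
  rw [← orderOf_dvd_iff_pow_eq_one, ← Equiv.Perm.lcm_cycleType]
  apply Multiset.lcm_dvd.2
  intro n hn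
  have h1 : n ∣ p ^ k := (Equiv.Perm.dvd_of_mem_cycleType hn).trans hk
  obtain ⟨j, hj, rfl⟩ := (Nat.dvd_prime_pow hp.out).1 h1
  have h2 : p ^ j ≤ p ^ c := by
    rw [← hX]
    calc p ^ j ≤ x.cycleType.sum := Multiset.single_le_sum (fun _ _ => Nat.zero_le _) _ hn
      _ = x.support.card := Equiv.Perm.sum_cycleType x
      _ ≤ Fintype.card X := Finset.card_le_univ _
  exact pow_dvd_pow p ((Nat.pow_le_pow_iff_right hp.out.one_lt).1 h2)

/-- Translations. -/
def tr (X : Type) [AddCommGroup X] : Multiplicative X →* Equiv.Perm X where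
  toFun v := Equiv.addLeft (Multiplicative.toAdd v)
  map_one' := by ext; simp
  map_mul' u v := by ext x; simp

theorem seed (p : ℕ) [Fact p.Prime] (c : ℕ) : ∃ (G : Type) (_ : Group G) (_ : Finite G)
    (A B : Subgroup G) (g : G),
    (∀ x : G, ∃ a ∈ A, ∃ b ∈ B, x = a * b) ∧ (∀ a ∈ A, a ^ p = 1) ∧
    (∀ a ∈ A, ∀ b ∈ A, a * b = b * a) ∧ Nat.card A = p ^ c ∧ (∀ x : G, x ^ p ^ c = 1) ∧
    p ^ c ∣ orderOf g ∧ (∀ (x : G) (n : ℕ), x * g ^ n * x⁻¹ ∈ B → g ^ n = 1) := by
  classical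
  have hp : p.Prime := Fact.out
  let X := Fin c → ZMod p
  have hX : Fintype.card X = p ^ c := by simp [X, ZMod.card]
  have : NeZero (p ^ c) := ⟨pow_ne_zero _ hp.ne_zero⟩
  have hpX : ∀ v : X, p • v = 0 := by
    intro v
    funext i
    rw [Pi.smul_apply, Pi.zero_apply, nsmul_eq_mul, ZMod.natCast_self, zero_mul]
  -- the translations
  have hT : IsPGroup p (tr X).range := by
    intro x
    refine ⟨1, ?_⟩
    obtain ⟨v, hv⟩ := x.2
    apply Subtype.ext
    rw [pow_one, Subgroup.coe_pow, ← hv, ← map_pow]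
    have : v ^ p = 1 := by
      apply Multiplicative.toAdd.injective
      rw [toAdd_pow, toAdd_one]
      exact hpX _
    rw [this, map_one, Subgroup.coe_one]
  obtain ⟨P, hP⟩ := hT.exists_le_sylow
  -- the long cycle
  have hcard : Fintype.card X = Fintype.card (ZMod (p ^ c)) := by rw [hX, ZMod.card]
  let e : X ≃ ZMod (p ^ c) := Fintype.equivOfCardEq hcard
  let t : Equiv.Perm X := (e.trans (Equiv.addRight 1)).trans e.symm
  have htn : ∀ (n : ℕ) (x : X), (t ^ n) x = e.symm (e x + n) := by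
    intro n
    induction n with
    | zero => intro x; simp
    | succ n ih =>
      intro x
      rw [pow_succ', Equiv.Perm.mul_apply, ih]
      simp [t, add_assoc]
  have hfix : ∀ (n : ℕ) (x : X), (t ^ n) x = x → p ^ c ∣ n := by
    intro n x h
    rw [htn, Equiv.symm_apply_eq] at h
    have : (n : ZMod (p ^ c)) = 0 := by simpa using h
    exact (ZMod.natCast_eq_zero_iff _ _).1 this
  have ht1 : t ^ p ^ c = 1 := by
    ext x : 1
    rw [htn, ZMod.natCast_self, add_zero, Equiv.symm_apply_apply, Equiv.Perm.one_apply]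
  have hone : ∀ n : ℕ, p ^ c ∣ n → t ^ n = 1 := by
    rintro n ⟨m, rfl⟩
    rw [pow_mul, ht1, one_pow]
  have hC : IsPGroup p (Subgroup.zpowers t) := by
    intro x
    refine ⟨c, ?_⟩
    obtain ⟨m, hm⟩ := x.2
    apply Subtype.ext
    rw [Subgroup.coe_pow, ← hm, Subgroup.coe_one]
    show (t ^ m) ^ p ^ c = 1
    rw [← zpow_natCast, ← zpow_mul, mul_comm, zpow_mul, zpow_natCast, ht1, one_zpow]
  obtain ⟨Q, hQ⟩ := hC.exists_le_sylow
  obtain ⟨h, hh⟩ := MulAction.exists_smul_eq (Equiv.Perm X) Q P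
  have hg : h * t * h⁻¹ ∈ (P : Subgroup (Equiv.Perm X)) := by
    rw [← hh, Sylow.coe_subgroup_smul]
    have : t ∈ (Q : Subgroup (Equiv.Perm X)) := hQ (Subgroup.mem_zpowers t)
    have h2 := Subgroup.smul_mem_pointwise_smul t (MulAut.conj h) _ this
    simpa [MulAut.smul_def, MulAut.conj_apply] using h2
  refine ⟨P, inferInstance, inferInstance, (tr X).range.subgroupOf P,
    MulAction.stabilizer P (0 : X), ⟨h * t * h⁻¹, hg⟩, ?_, ?_, ?_, ?_, ?_, ?_, ?_⟩
  · intro x
    have ha : tr X (Multiplicative.ofAdd ((x : Equiv.Perm X) 0)) ∈ (P : Subgroup (Equiv.Perm X)) :=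
      hP ⟨_, rfl⟩
    refine ⟨⟨_, ha⟩, ?_, (⟨_, ha⟩ : P)⁻¹ * x, ?_, ?_⟩
    · rw [Subgroup.mem_subgroupOf]
      exact ⟨_, rfl⟩
    · rw [MulAction.mem_stabilizer_iff]
      show ((tr X (Multiplicative.ofAdd ((x : Equiv.Perm X) 0)))⁻¹ * (x : Equiv.Perm X)) 0 = 0
      rw [Equiv.Perm.mul_apply, Equiv.Perm.inv_eq_iff_eq]
      simp [tr]
    · rw [mul_inv_cancel_left]
  · intro a ha
    rw [Subgroup.mem_subgroupOf] at ha
    obtain ⟨v, hv⟩ := ha
    apply Subtype.ext
    rw [Subgroup.coe_pow, ← hv, ← map_pow]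
    have : v ^ p = 1 := by
      apply Multiplicative.toAdd.injective
      rw [toAdd_pow, toAdd_one]
      exact hpX _
    rw [this, map_one, Subgroup.coe_one]
  · intro a ha b hb
    rw [Subgroup.mem_subgroupOf] at ha hb
    obtain ⟨u, hu⟩ := ha
    obtain ⟨v, hv⟩ := hb
    apply Subtype.ext
    rw [Subgroup.coe_mul, Subgroup.coe_mul, ← hu, ← hv, ← map_mul, ← map_mul, mul_comm]
  · rw [Nat.card_congr (Subgroup.subgroupOfEquivOfLe hP).toEquiv]
    have hinj : Function.Injective (tr X) := by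
      intro u v huv
      have := DFunLike.congr_fun huv (0 : X)
      simpa [tr] using this
    rw [← Nat.card_congr (MonoidHom.ofInjective hinj).toEquiv, Nat.card_eq_fintype_card]
    exact (Fintype.card_multiplicative X).trans hX
  · intro x
    obtain ⟨k, hk⟩ := P.isPGroup' x
    have h1 : (x : Equiv.Perm X) ^ p ^ k = 1 := by
      rw [← Subgroup.coe_pow, hk, Subgroup.coe_one]
    apply Subtype.ext
    rw [Subgroup.coe_pow, Subgroup.coe_one]
    exact pow_eq_one_of_orderOf p c hX _ k (orderOf_dvd_of_pow_eq_one h1)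
  · have h1 : (⟨h * t * h⁻¹, hg⟩ : P) ^ orderOf (⟨h * t * h⁻¹, hg⟩ : P) = 1 := pow_orderOf_eq_one _
    have h2 := congrArg Subtype.val h1
    rw [Subgroup.coe_pow, Subgroup.coe_one] at h2
    simp only [conj_pow] at h2
    have h3 : t ^ orderOf (⟨h * t * h⁻¹, hg⟩ : P) = 1 := by
      have := congrArg (fun y => h⁻¹ * y * h) h2
      simpa [mul_assoc] using this
    apply hfix _ (0 : X)
    rw [h3, Equiv.Perm.one_apply]
  · intro x n hx
    rw [MulAction.mem_stabilizer_iff] at hx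
    have h1 : ((x : Equiv.Perm X) * (h * t * h⁻¹) ^ n * (x : Equiv.Perm X)⁻¹) 0 = 0 := hx
    rw [conj_pow] at h1
    have h2 : (t ^ n) (h⁻¹ ((x : Equiv.Perm X)⁻¹ 0)) = h⁻¹ ((x : Equiv.Perm X)⁻¹ 0) := by
      rw [Equiv.Perm.eq_inv_iff_eq, Equiv.Perm.eq_inv_iff_eq]
      simpa [Equiv.Perm.mul_apply] using h1
    have h3 : t ^ n = 1 := hone n (hfix n _ h2)
    apply Subtype.ext
    rw [Subgroup.coe_pow, Subgroup.coe_one]
    show (h * t * h⁻¹) ^ n = 1
    rw [conj_pow, h3, mul_one, mul_inv_cancel]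

end Pool.Agent.Lib.MP_87fd0b_al.Seed
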